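import Mathlib
import Pool.Agent.W744.NG.All

set_option autoImplicit false
set_option linter.unusedSectionVars false

/-!
# MP_7561b1_an, Q1 (negative answer)

There is an automorphism with Lebesgue spectrum whose generic extension does not have Lebesgue
spectrum.
-/

open MeasureTheory Set Filter Topology
open scoped ENNReal symmDiff

namespace Pool.Agent.Results.MP_7561b1_an.LebesgueNotGeneric

/-- Invertible bimeasurable `m`-preserving maps of `Z` onto itself (representatives of the elements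
of `Aut(Z, m)`). -/
def PreAut {Z : Type*} [MeasurableSpace Z] (m : Measure Z) : Type _ :=
  {S : Z ≃ᵐ Z // MeasurePreserving S m m}

/-- `σ` is the spectral measure of `f` for the Koopman operator `f ↦ f ∘ S`: a finite measure on the
circle `ℝ/ℤ` with `∫ e^{2πinθ} dσ(θ) = ⟨f ∘ S^n, f⟩` for all `n ≥ 0` (hence, by conjugation, for all `n`). -/
def IsSpectralMeasure {Z : Type*} [MeasurableSpace Z] (m : Measure Z) (S : Z → Z) (f : Z → ℂ)
    (σ : Measure UnitAddCircle) : Prop :=
  IsFiniteMeasure σ ∧ ∀ n : ℕ, ∫ θ, fourier (n : ℤ) θ ∂σ = ∫ z, f (S^[n] z) * starRingEnd ℂ (f z) ∂m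

/-- `S` has Lebesgue spectrum: on the mean-zero square integrable functions, every spectral measure is
absolutely continuous with respect to Lebesgue measure of the circle and Lebesgue measure is absolutely
continuous with respect to some spectral measure. -/
def LebesgueSpectrum {Z : Type*} [MeasurableSpace Z] (m : Measure Z) (S : Z → Z) : Prop :=
  (∀ f : Z → ℂ, MemLp f 2 m → ∫ z, f z ∂m = 0 → ∃ σ, IsSpectralMeasure m S f σ ∧ σ ≪ volume) ∧
  ∃ f : Z → ℂ, MemLp f 2 m ∧ ∫ z, f z ∂m = 0 ∧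
    ∃ σ, IsSpectralMeasure m S f σ ∧ (volume : Measure UnitAddCircle) ≪ σ

/-- Measurable cocycles `α : X → Aut(Y, ν)` (representatives): jointly measurable families of
automorphisms of `(Y, ν)`. -/
def PreCocycle (X : Type*) {Y : Type*} [MeasurableSpace X] [MeasurableSpace Y] (ν : Measure Y) : Type _ :=
  {α : X → PreAut ν // Measurable (fun z : X × Y => (α z.1).1 z.2)}

section
variable {X Y : Type*} [MeasurableSpace X] [MeasurableSpace Y]

/-- Equality of cocycles modulo null sets. -/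
def cocEq (μ : Measure X) (ν : Measure Y) : Setoid (PreCocycle X ν) where
  r := fun α β => ∀ᵐ x ∂μ, ∀ᵐ y ∂ν, (α.1 x).1 y = (β.1 x).1 y
  iseqv :=
    { refl := fun α => Eventually.of_forall fun x => Eventually.of_forall fun y => rfl
      symm := fun {α β} h => h.mono fun x hx => hx.mono fun y hy => hy.symm
      trans := fun {α β γ} h h' => by
        filter_upwards [h, h'] with x h1 h2
        filter_upwards [h1, h2] with y h3 h4
        exact h3.trans h4 }

/-- The space of cocycles modulo null sets. -/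
def Cocycle (μ : Measure X) (ν : Measure Y) : Type _ := Quotient (cocEq μ ν)

/-- The class of a representative. -/
def cls (μ : Measure X) {ν : Measure Y} (α : PreCocycle X ν) : Cocycle μ ν := Quotient.mk (cocEq μ ν) α

/-- The classes of the cocycles `β` with `μ {x : ν (α(x)B Δ β(x)B) ≥ ε} < ε`. -/
def nbd (μ : Measure X) {ν : Measure Y} (α : PreCocycle X ν) (B : Set Y) (ε : ℝ) : Set (Cocycle μ ν) :=
  {q | ∃ β : PreCocycle X ν, cls μ β = q ∧
    μ.real {x | ε ≤ ν.real (((α.1 x).1 '' B) ∆ ((β.1 x).1 '' B))} < ε}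

/-- Convergence in measure of cocycles, `Aut(Y, ν)` carrying the weak topology. -/
instance inMeasure (μ : Measure X) (ν : Measure Y) : TopologicalSpace (Cocycle μ ν) :=
  TopologicalSpace.generateFrom
    {U | ∃ (α : PreCocycle X ν) (B : Set Y) (ε : ℝ), MeasurableSet B ∧ 0 < ε ∧ U = nbd μ α B ε}

/-- The extension `T_α(x, y) = (Tx, α(x)y)`. -/
def ext {μ : Measure X} {ν : Measure Y} (T : PreAut μ) (α : PreCocycle X ν) (z : X × Y) : X × Y :=
  (T.1 z.1, (α.1 z.1).1 z.2)

/-- The set of cocycles `α` for which `T_α` has Lebesgue spectrum. -/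
def LebesgueCocycles {μ : Measure X} (T : PreAut μ) (ν : Measure Y) : Set (Cocycle μ ν) :=
  {q | ∃ α : PreCocycle X ν, cls μ α = q ∧ LebesgueSpectrum (μ.prod ν) (ext T α)}

end

/-! ### proof -/

open Pool.Agent.W744.NG Pool.Agent.W744.NG.Final

section
variable {X Y : Type} [MeasurableSpace X] [StandardBorelSpace X] [MeasurableSpace Y] [StandardBorelSpace Y]
  {μ : Measure X} {ν : Measure Y} [IsProbabilityMeasure μ] [IsProbabilityMeasure ν]

theorem real_img (S S' : AU ν) (h : ∀ᵐ y ∂ν, S.1 y = S'.1 y) (A B : Set Y) :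
    ν.real (A ∆ (S.1 '' B)) = ν.real (A ∆ (S'.1 '' B)) := by
  apply measureReal_congr
  exact (ae_eq_refl A).symmDiff (Pool.H359R3.MX.img_ae ν S.1 S'.1 S.2 h B)

theorem mem_nbd (α β : PreCocycle X ν) (B : Set Y) (ε : ℝ) :
    cls μ β ∈ nbd μ α B ε ↔ (β : Coc X ν) ∈ NB μ (α : Coc X ν) B ε := by
  constructor
  · rintro ⟨β', h1, h2⟩
    have h3 : ∀ᵐ x ∂μ, ∀ᵐ y ∂ν, (β'.1 x).1 y = (β.1 x).1 y := Quotient.exact h1
    show μ.real {x | ε ≤ ν.real (((α.1 x).1 '' B) ∆ ((β.1 x).1 '' B))} < ε
    refine lt_of_le_of_lt (le_of_eq ?_) h2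
    apply measureReal_congr
    filter_upwards [h3] with x hx
    apply propext
    have h4 := real_img (β'.1 x) (β.1 x) hx ((α.1 x).1 '' B) B
    show ε ≤ ν.real (((α.1 x).1 '' B) ∆ ((β.1 x).1 '' B)) ↔ ε ≤ ν.real (((α.1 x).1 '' B) ∆ ((β'.1 x).1 '' B))
    rw [← h4]
  · intro h
    exact ⟨β, rfl, h⟩

/-- the class map on the cocycles of the library -/
def clsC (μ : Measure X) (ν : Measure Y) (Φ : Coc X ν) : Cocycle μ ν := cls μ Φ

theorem cls_surj : Function.Surjective (clsC μ ν) := Quotient.mk_surjective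

theorem ind : @IsInducing (Coc X ν) (Cocycle μ ν) (tC μ ν) _ (clsC μ ν) := by
  refine @IsInducing.mk _ _ (tC μ ν) _ _ ?_
  show tC μ ν = TopologicalSpace.induced (clsC μ ν) (TopologicalSpace.generateFrom _)
  rw [induced_generateFrom_eq]
  refine congrArg TopologicalSpace.generateFrom ?_
  ext U
  constructor
  · rintro ⟨α, B, ε, hB, hε, rfl⟩
    refine ⟨nbd μ α B ε, ⟨α, B, ε, hB, hε, rfl⟩, ?_⟩
    ext β
    exact mem_nbd α β B ε
  · rintro ⟨_, ⟨α, B, ε, hB, hε, rfl⟩, rfl⟩
    refine ⟨α, B, ε, hB, hε, ?_⟩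
    ext β
    exact mem_nbd α β B ε

theorem pre_leb (T : AU μ) : clsC μ ν ⁻¹' (LebesgueCocycles (T : PreAut μ) ν) =
    {Φ : Coc X ν | LebSpec (μ.prod ν) (sk T.1 Φ)} := by
  ext Φ
  constructor
  · rintro ⟨α, h1, h2⟩
    have h3 : ∀ᵐ x ∂μ, ∀ᵐ y ∂ν, (α.1 x).1 y = (Φ.1 x).1 y := Quotient.exact h1
    have h4 : ∀ᵐ z ∂(μ.prod ν), sk T.1 (α : Coc X ν) z = sk T.1 Φ z := by
      have h5 : MeasurableSet {z : X × Y | (α.1 z.1).1 z.2 = (Φ.1 z.1).1 z.2} :=
        measurableSet_eq_fun α.2 Φ.2
      have h6 : ∀ᵐ z ∂(μ.prod ν), (α.1 z.1).1 z.2 = (Φ.1 z.1).1 z.2 := by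
        rw [Measure.ae_prod_iff_ae_ae h5]
        exact h3
      filter_upwards [h6] with z hz
      unfold sk
      exact Prod.ext rfl hz
    exact leb_congr (sk_mp T (α : Coc X ν)) (sk_mp T Φ) h4 h2
  · intro h
    exact ⟨Φ, rfl, h⟩

end

/-- **Theorem.** Every nonatomic standard probability space `(X, μ)` carries an automorphism `T` with
Lebesgue spectrum such that for every nonatomic standard probability space `(Y, ν)` the set of cocycles
`α` for which the extension `T_α` has Lebesgue spectrum has comeagre complement in the space of cocycles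
(modulo null sets, convergence in measure), and is not comeagre. -/
theorem result {X : Type} [MeasurableSpace X] [StandardBorelSpace X] (μ : Measure X)
    [IsProbabilityMeasure μ] [NullSingletonClass μ] :
    ∃ T : PreAut μ, LebesgueSpectrum μ T.1 ∧
      ∀ (Y : Type) [MeasurableSpace Y] [StandardBorelSpace Y] (ν : Measure Y) [IsProbabilityMeasure ν]
        [NullSingletonClass ν],
        (LebesgueCocycles T ν)ᶜ ∈ residual (Cocycle μ ν) ∧ LebesgueCocycles T ν ∉ residual (Cocycle μ ν) := by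
  obtain ⟨T, ⟨W⟩⟩ := All.tower X μ
  refine ⟨T, All.leb X μ T W, fun Y _ _ ν _ _ => ?_⟩
  obtain ⟨D⟩ := YSt.main Y ν
  have h1 := generic Ind.main All.opn All.sing All.dens T W D
  have h2 : (LebesgueCocycles (T : PreAut μ) ν)ᶜ ∈ residual (Cocycle μ ν) := by
    let _ : TopologicalSpace (Coc X ν) := tC μ ν
    rw [res_iff (clsC μ ν) ind cls_surj, preimage_compl, pre_leb]
    exact h1
  refine ⟨h2, fun h3 => ?_⟩
  have h4 : (∅ : Set (Cocycle μ ν)) ∈ residual (Cocycle μ ν) := by
    have := Filter.inter_mem h3 h2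
    rwa [inter_compl_self] at this
  let _ : TopologicalSpace (Coc X ν) := tC μ ν
  rw [res_iff (clsC μ ν) ind cls_surj, preimage_empty] at h4
  have hB : BaireSpace (Coc X ν) := All.baire X Y μ ν
  obtain ⟨x, hx⟩ := (dense_of_mem_residual h4).nonempty_iff.2 ⟨⟨fun _ => Pool.H359R3.IX.oneA, measurable_snd⟩⟩
  exact hx

end Pool.Agent.Results.MP_7561b1_an.LebesgueNotGeneric
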