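import Mathlib
import Pool.Agent.W744.NG.Mult
import Pool.Agent.W744.NG.Final

set_option autoImplicit false
set_option linter.unusedSectionVars false

/-!
# MP_7561b1_an, Q2 (positive answer)

If `T` is mixing of all orders then the generic extension of `T` is mixing of all orders.
-/

open MeasureTheory Set Filter Topology
open scoped ENNReal symmDiff

namespace Pool.Agent.Results.MP_7561b1_an.MultipleMixingLifts

/-- Invertible bimeasurable `m`-preserving maps of `Z` onto itself (representatives of the elements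
of `Aut(Z, m)`). -/
def PreAut {Z : Type*} [MeasurableSpace Z] (m : Measure Z) : Type _ :=
  {S : Z ≃ᵐ Z // MeasurePreserving S m m}

/-- The time `n_j = g_1 + ⋯ + g_j` (and `n_0 = 0`) with gaps `g_1, …, g_k`. -/
def time {k : ℕ} (g : Fin k → ℕ) (j : Fin (k + 1)) : ℕ := ∑ i : Fin k, if (i : ℕ) < (j : ℕ) then g i else 0

/-- `S` is multiply mixing: for every `k ≥ 2` and measurable `A_0, …, A_k`,
`m(A_0 ∩ S^{-n_1} A_1 ∩ ⋯ ∩ S^{-n_k} A_k) → m(A_0) ⋯ m(A_k)` as all the gaps `n_1, n_2 - n_1, …` tend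
to infinity. -/
def MultiplyMixing {Z : Type*} [MeasurableSpace Z] (m : Measure Z) (S : Z → Z) : Prop :=
  ∀ k ≥ 2, ∀ A : Fin (k + 1) → Set Z, (∀ j, MeasurableSet (A j)) →
    Tendsto (fun g : Fin k → ℕ => m.real (⋂ j, (S^[time g j]) ⁻¹' A j)) atTop (𝓝 (∏ j, m.real (A j)))

/-- Measurable cocycles `α : X → Aut(Y, ν)` (representatives): jointly measurable families of
automorphisms of `(Y, ν)`. -/
def PreCocycle (X : Type*) {Y : Type*} [MeasurableSpace X] [MeasurableSpace Y] (ν : Measure Y) : Type _ :=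
  {α : X → PreAut ν // Measurable (fun z : X × Y => (α z.1).1 z.2)}

section
variable {X Y : Type*} [MeasurableSpace X] [MeasurableSpace Y]

/-- Equality of cocycles modulo null sets. -/
def cocEq (μ : Measure X) (ν : Measure Y) : Setoid (PreCocycle X ν) where
  r := fun α β => ∀ᵐ x ∂μ, ∀ᵐ y ∂ν, (α.1 x).1 y = (β.1 x).1 y
  iseqv :=
    { refl := fun α => Eventually.of_forall fun x => Eventually.of_forall fun y => rfl
      symm := fun {α β} h => h.mono fun x hx => hx.mono fun y hy => hy.symm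
      trans := fun {α β γ} h h' => by
        filter_upwards [h, h'] with x h1 h2
        filter_upwards [h1, h2] with y h3 h4
        exact h3.trans h4 }

/-- The space of cocycles modulo null sets. -/
def Cocycle (μ : Measure X) (ν : Measure Y) : Type _ := Quotient (cocEq μ ν)

/-- The class of a representative. -/
def cls (μ : Measure X) {ν : Measure Y} (α : PreCocycle X ν) : Cocycle μ ν := Quotient.mk (cocEq μ ν) α

/-- The classes of the cocycles `β` with `μ {x : ν (α(x)B Δ β(x)B) ≥ ε} < ε`. -/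
def nbd (μ : Measure X) {ν : Measure Y} (α : PreCocycle X ν) (B : Set Y) (ε : ℝ) : Set (Cocycle μ ν) :=
  {q | ∃ β : PreCocycle X ν, cls μ β = q ∧
    μ.real {x | ε ≤ ν.real (((α.1 x).1 '' B) ∆ ((β.1 x).1 '' B))} < ε}

/-- Convergence in measure of cocycles, `Aut(Y, ν)` carrying the weak topology. -/
instance inMeasure (μ : Measure X) (ν : Measure Y) : TopologicalSpace (Cocycle μ ν) :=
  TopologicalSpace.generateFrom
    {U | ∃ (α : PreCocycle X ν) (B : Set Y) (ε : ℝ), MeasurableSet B ∧ 0 < ε ∧ U = nbd μ α B ε}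

/-- The extension `T_α(x, y) = (Tx, α(x)y)`. -/
def ext {μ : Measure X} {ν : Measure Y} (T : PreAut μ) (α : PreCocycle X ν) (z : X × Y) : X × Y :=
  (T.1 z.1, (α.1 z.1).1 z.2)

end

/-! ### proof -/

open Pool.Agent.W744.NG Pool.Agent.W744.NG.Final

section
variable {X Y : Type} [MeasurableSpace X] [StandardBorelSpace X] [MeasurableSpace Y] [StandardBorelSpace Y]
  {μ : Measure X} {ν : Measure Y} [IsProbabilityMeasure μ] [IsProbabilityMeasure ν]

theorem real_img (S S' : AU ν) (h : ∀ᵐ y ∂ν, S.1 y = S'.1 y) (A B : Set Y) :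
    ν.real (A ∆ (S.1 '' B)) = ν.real (A ∆ (S'.1 '' B)) := by
  apply measureReal_congr
  exact (ae_eq_refl A).symmDiff (Pool.H359R3.MX.img_ae ν S.1 S'.1 S.2 h B)

theorem mem_nbd (α β : PreCocycle X ν) (B : Set Y) (ε : ℝ) :
    cls μ β ∈ nbd μ α B ε ↔ (β : Coc X ν) ∈ NB μ (α : Coc X ν) B ε := by
  constructor
  · rintro ⟨β', h1, h2⟩
    have h3 : ∀ᵐ x ∂μ, ∀ᵐ y ∂ν, (β'.1 x).1 y = (β.1 x).1 y := Quotient.exact h1
    show μ.real {x | ε ≤ ν.real (((α.1 x).1 '' B) ∆ ((β.1 x).1 '' B))} < ε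
    refine lt_of_le_of_lt (le_of_eq ?_) h2
    apply measureReal_congr
    filter_upwards [h3] with x hx
    apply propext
    have h4 := real_img (β'.1 x) (β.1 x) hx ((α.1 x).1 '' B) B
    show ε ≤ ν.real (((α.1 x).1 '' B) ∆ ((β.1 x).1 '' B)) ↔ ε ≤ ν.real (((α.1 x).1 '' B) ∆ ((β'.1 x).1 '' B))
    rw [← h4]
  · intro h
    exact ⟨β, rfl, h⟩

/-- the class map on the cocycles of the library -/
def clsC (μ : Measure X) (ν : Measure Y) (Φ : Coc X ν) : Cocycle μ ν := cls μ Φ

theorem cls_surj : Function.Surjective (clsC μ ν) := Quotient.mk_surjective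

theorem ind : @IsInducing (Coc X ν) (Cocycle μ ν) (tC μ ν) _ (clsC μ ν) := by
  refine @IsInducing.mk _ _ (tC μ ν) _ _ ?_
  show tC μ ν = TopologicalSpace.induced (clsC μ ν) (TopologicalSpace.generateFrom _)
  rw [induced_generateFrom_eq]
  refine congrArg TopologicalSpace.generateFrom ?_
  ext U
  constructor
  · rintro ⟨α, B, ε, hB, hε, rfl⟩
    refine ⟨nbd μ α B ε, ⟨α, B, ε, hB, hε, rfl⟩, ?_⟩
    ext β
    exact mem_nbd α β B ε
  · rintro ⟨_, ⟨α, B, ε, hB, hε, rfl⟩, rfl⟩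
    refine ⟨α, B, ε, hB, hε, ?_⟩
    ext β
    exact mem_nbd α β B ε

theorem ae_sk (T : AU μ) (α Φ : Coc X ν) (h3 : ∀ᵐ x ∂μ, ∀ᵐ y ∂ν, (α.1 x).1 y = (Φ.1 x).1 y) :
    ∀ᵐ z ∂(μ.prod ν), sk T.1 α z = sk T.1 Φ z := by
  have h5 : MeasurableSet {z : X × Y | (α.1 z.1).1 z.2 = (Φ.1 z.1).1 z.2} := measurableSet_eq_fun α.2 Φ.2
  have h6 : ∀ᵐ z ∂(μ.prod ν), (α.1 z.1).1 z.2 = (Φ.1 z.1).1 z.2 := by
    rw [Measure.ae_prod_iff_ae_ae h5]
    exact h3
  filter_upwards [h6] with z hz
  unfold sk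
  exact Prod.ext rfl hz

theorem mm_iff {Z : Type} [MeasurableSpace Z] {m : Measure Z} (S : AU m) :
    MultiplyMixing m (S.1 : Z → Z) ↔ ∀ k ≥ 2, Pool.H359R3.MX.MixS true k m S.1 := Iff.rfl

end

/-- **Theorem.** Let `(X, μ)`, `(Y, ν)` be nonatomic standard probability spaces and `T` a multiply
mixing automorphism of `(X, μ)`. Then the set of cocycles `α` (modulo null sets, with convergence in
measure) for which the extension `T_α` is multiply mixing is comeagre. -/
theorem result {X Y : Type} [MeasurableSpace X] [StandardBorelSpace X] [MeasurableSpace Y]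
    [StandardBorelSpace Y] (μ : Measure X) [IsProbabilityMeasure μ] [NullSingletonClass μ]
    (ν : Measure Y) [IsProbabilityMeasure ν] [NullSingletonClass ν] (T : PreAut μ)
    (hT : MultiplyMixing μ T.1) :
    {q : Cocycle μ ν | ∀ α : PreCocycle X ν, cls μ α = q → MultiplyMixing (μ.prod ν) (ext T α)} ∈
      residual (Cocycle μ ν) := by
  let _ : TopologicalSpace (Coc X ν) := tC μ ν
  rw [res_iff (clsC μ ν) ind cls_surj]
  refine Filter.mem_of_superset (Pool.Agent.W744.NG.Mult.mult_all (μ := μ) (ν := ν) T ((mm_iff T).1 hT)) ?_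
  intro Φ hΦ α hα
  have h3 : ∀ᵐ x ∂μ, ∀ᵐ y ∂ν, (α.1 x).1 y = (Φ.1 x).1 y := Quotient.exact hα
  have h4 := ae_sk (μ := μ) T (α : Coc X ν) Φ h3
  have h5 : MultiplyMixing (μ.prod ν) ((skA (T : AU μ) (α : Coc X ν)).1 : X × Y → X × Y) := by
    rw [mm_iff]
    intro k hk
    refine Pool.Agent.W744.NG.Mult.mixS_congr (skA (T : AU μ) Φ) (skA (T : AU μ) (α : Coc X ν)) ?_ k (hΦ k hk)
    exact h4.mono fun z hz => hz.symm
  exact h5

end Pool.Agent.Results.MP_7561b1_an.MultipleMixingLifts
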